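import Pool.Agent.Q100.Chain.Weights

set_option autoImplicit false

/-!
Weights of the proper subgroups of a `p`-group.
-/

namespace Pool.Agent.Q100.Chain

open scoped Pointwise

theorem sup_zpowers_eq_top {H : Type} [Group H] (R : Subgroup H) [R.Normal] (x : H) :
    R ⊔ Subgroup.zpowers x = ⊤ ↔ Subgroup.zpowers (x : H ⧸ R) = ⊤ := by
  have h1 : (R ⊔ Subgroup.zpowers x).map (QuotientGroup.mk' R) = Subgroup.zpowers (x : H ⧸ R) := by
    rw [Subgroup.map_sup, QuotientGroup.map_mk'_self, bot_sup_eq, MonoidHom.map_zpowers]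
    rfl
  constructor
  · intro h
    rw [← h1, h]
    exact Subgroup.map_top_of_surjective _ (QuotientGroup.mk'_surjective R)
  · intro h
    rw [← h1] at h
    have h2 := congrArg (Subgroup.comap (QuotientGroup.mk' R)) h
    rw [Subgroup.comap_map_eq, Subgroup.comap_top, QuotientGroup.ker_mk'] at h2
    rw [← h2]
    apply le_antisymm
    · exact le_sup_left
    · exact sup_le le_rfl le_sup_left

/-- The number of elements `x` of a `p`-group of order `p^k` such that `R ⊔ ⟨x⟩` is a proper
subgroup is divisible by `p^(k-1)`, for every proper normal subgroup `R`. -/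
theorem count_nongen {H : Type} [Group H] [Finite H] {p : ℕ} [hp : Fact p.Prime] (k : ℕ)
    (hk : Nat.card H = p ^ k) (R : Subgroup H) [hRn : R.Normal] (hR : R ≠ ⊤) :
    p ^ (k - 1) ∣ Nat.card {x : H // R ⊔ Subgroup.zpowers x ≠ ⊤} := by
  classical
  have := Fintype.ofFinite H
  have := Fintype.ofFinite (H ⧸ R)
  -- the complement
  have hcompl : Nat.card {x : H // R ⊔ Subgroup.zpowers x ≠ ⊤} +
      Nat.card {x : H // R ⊔ Subgroup.zpowers x = ⊤} = p ^ k := by
    rw [← hk, Nat.card_eq_fintype_card, Nat.card_eq_fintype_card, Nat.card_eq_fintype_card]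
    have := Fintype.card_subtype_compl (fun x : H => R ⊔ Subgroup.zpowers x = ⊤)
    have h2 : Fintype.card {x : H // R ⊔ Subgroup.zpowers x = ⊤} ≤ Fintype.card H :=
      Fintype.card_subtype_le _
    have h3 : Fintype.card {x : H // R ⊔ Subgroup.zpowers x ≠ ⊤} =
        Fintype.card H - Fintype.card {x : H // R ⊔ Subgroup.zpowers x = ⊤} := this
    omega
  have hfib : Nat.card {x : H // R ⊔ Subgroup.zpowers x = ⊤} =
      Nat.card R * Nat.card {c : H ⧸ R // Subgroup.zpowers c = ⊤} := by
    rw [← Nat.card_prod]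
    have e := QuotientGroup.preimageMkEquivSubgroupProdSet R
      {c : H ⧸ R | Subgroup.zpowers c = ⊤}
    refine Eq.trans ?_ (Nat.card_congr e)
    apply Nat.card_congr
    apply Equiv.subtypeEquivRight
    intro x
    exact sup_zpowers_eq_top R x
  have hmain : p ^ (k - 1) ∣ Nat.card {x : H // R ⊔ Subgroup.zpowers x = ⊤} := by
    rw [hfib]
    by_cases hcyc : ∃ c : H ⧸ R, Subgroup.zpowers c = ⊤
    swap
    · have : IsEmpty {c : H ⧸ R // Subgroup.zpowers c = ⊤} := ⟨fun c => hcyc ⟨c.1, c.2⟩⟩
      rw [Nat.card_of_isEmpty (α := {c : H ⧸ R // Subgroup.zpowers c = ⊤}), mul_zero]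
      exact dvd_zero _
    · obtain ⟨c, hc⟩ := hcyc
      have hcy : IsCyclic (H ⧸ R) := ⟨c, fun x => by
        have : x ∈ Subgroup.zpowers c := by rw [hc]; exact Subgroup.mem_top x
        exact this⟩
      have hcard : Nat.card R * Nat.card (H ⧸ R) = p ^ k := by
        rw [← hk]; exact Subgroup.card_mul_index R
      obtain ⟨i, hi, hi'⟩ := (Nat.dvd_prime_pow hp.out).1 (Dvd.intro_left _ hcard)
      have hi0 : i ≠ 0 := by
        rintro rfl
        rw [pow_zero] at hi'
        apply hR
        rw [← Subgroup.index_eq_one]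
        exact hi'
      have hgen : Nat.card {c : H ⧸ R // Subgroup.zpowers c = ⊤} = Nat.totient (p ^ i) := by
        have h1 := IsCyclic.card_orderOf_eq_totient (α := H ⧸ R) (d := p ^ i)
          (by rw [← hi', Nat.card_eq_fintype_card])
        rw [← h1, Nat.card_eq_fintype_card, Fintype.card_subtype]
        congr 1
        ext x
        simp only [Finset.mem_filter, Finset.mem_univ, true_and]
        rw [← Subgroup.card_eq_iff_eq_top, Nat.card_zpowers, hi']
      rw [hgen, Nat.totient_prime_pow hp.out (Nat.pos_of_ne_zero hi0)]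
      have hRc : Nat.card R = p ^ (k - i) := by
        rw [hi'] at hcard
        have h2 : p ^ k = p ^ (k - i) * p ^ i := by rw [← pow_add]; congr 1; omega
        rw [h2] at hcard
        exact Nat.eq_of_mul_eq_mul_right (pow_pos hp.out.pos i) hcard
      rw [hRc, ← mul_assoc, ← pow_add]
      have : k - i + (i - 1) = k - 1 := by omega
      rw [this]
      exact Nat.dvd_mul_right _ _
  have h3 : p ^ (k - 1) ∣ p ^ k := pow_dvd_pow p (by omega)
  rw [← hcompl] at h3
  exact (Nat.dvd_add_left hmain).1 h3

variable {G : Type} [Group G] [Finite G]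

section
open Classical

variable [Fintype (Subgroup G)]

/-- For a proper subgroup `R` of a `p`-group `K` of order `p^k`, `p^(k-1)` divides
`|R| wt(R)`. -/
theorem brown_proper (p : ℕ) [hp : Fact p.Prime] (K : Subgroup G) (k : ℕ)
    (hK : Nat.card K = p ^ k) : ∀ R ∈ PR K,
      ((p ^ (k - 1) : ℕ) : ℤ) ∣ (Nat.card R : ℤ) * wt (PR K) R := by
  have hKp : IsPGroup p K := IsPGroup.iff_card.2 ⟨k, hK⟩
  have inner : ∀ m : ℕ, ∀ R ∈ PR K, Nat.card K - Nat.card R = m →
      ((p ^ (k - 1) : ℕ) : ℤ) ∣ (Nat.card R : ℤ) * wt (PR K) R := by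
    intro m
    induction m using Nat.strong_induction_on with
    | _ m ihm =>
      intro R hR hm
      have hR' := mem_PR.1 hR
      by_cases hN : K ≤ nz R
      swap
      · rw [wt_PR_nz (p := p) K R hKp hR' hN, mul_zero]
        exact dvd_zero _
      · have hsum := sum_card_mul_wt K R (PR K) (fun Q hQ => (mem_PR.1 hQ).le)
          (fun Q hQ V _ hVQ => mem_PR.2 (lt_of_le_of_lt hVQ (mem_PR.1 hQ)))
        have hnormal : (R.subgroupOf K).Normal := by
          constructor
          intro y hy x
          rw [Subgroup.mem_subgroupOf] at hy ⊢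
          exact (Subgroup.mem_normalizer_iff.1 (hN x.2) y).1 hy
        have hne : R.subgroupOf K ≠ ⊤ := by
          intro h
          rw [Subgroup.subgroupOf_eq_top] at h
          exact hR'.ne (le_antisymm hR'.le h)
        have hset : Nat.card {x : G // x ∈ K ∧ R ⊔ Subgroup.zpowers x ∈ PR K} =
            Nat.card {x : K // R.subgroupOf K ⊔ Subgroup.zpowers x ≠ ⊤} := by
          have hiff : ∀ x : K, R.subgroupOf K ⊔ Subgroup.zpowers x ≠ ⊤ ↔
              R ⊔ Subgroup.zpowers (x : G) < K := by
            intro x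
            have h1 : (R.subgroupOf K ⊔ Subgroup.zpowers x).map K.subtype =
                R ⊔ Subgroup.zpowers (x : G) := by
              rw [Subgroup.map_sup, Subgroup.map_subgroupOf_eq_of_le hR'.le,
                MonoidHom.map_zpowers]
              rfl
            have h2 : R ⊔ Subgroup.zpowers (x : G) ≤ K :=
              sup_le hR'.le (by rw [Subgroup.zpowers_le]; exact x.2)
            rw [lt_iff_le_and_ne]
            constructor
            · intro h3
              refine ⟨h2, fun h4 => h3 ?_⟩
              apply Subgroup.map_injective K.subtype_injective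
              rw [h1, h4, ← MonoidHom.range_eq_map, Subgroup.range_subtype]
            · rintro ⟨_, h3⟩ h4
              apply h3
              rw [← h1, h4, ← MonoidHom.range_eq_map, Subgroup.range_subtype]
          apply Nat.card_congr
          refine ⟨fun x => ⟨⟨x.1, x.2.1⟩, ?_⟩, fun x => ⟨(x.1 : G), x.1.2, ?_⟩, ?_, ?_⟩
          · exact (hiff _).2 (mem_PR.1 x.2.2)
          · exact mem_PR.2 ((hiff _).1 x.2)
          · intro x; rfl
          · intro x; rfl
        rw [hset] at hsum
        have hcount := count_nongen (p := p) k hK (R.subgroupOf K) hne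
        have hsplit : (PR K).filter (R ≤ ·) = insert R ((PR K).filter (R < ·)) := by
          ext x
          simp only [Finset.mem_filter, Finset.mem_insert]
          constructor
          · rintro ⟨h1, h2⟩
            rcases eq_or_lt_of_le h2 with h | h
            · exact Or.inl h.symm
            · exact Or.inr ⟨h1, h⟩
          · rintro (rfl | ⟨h1, h2⟩)
            · exact ⟨hR, le_rfl⟩
            · exact ⟨h1, h2.le⟩
        rw [hsplit, Finset.sum_insert (by simp)] at hsum
        have hrest : ((p ^ (k - 1) : ℕ) : ℤ) ∣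
            ∑ Q ∈ (PR K).filter (R < ·), (Nat.card Q : ℤ) * wt (PR K) Q := by
          apply Finset.dvd_sum
          intro Q hQ
          rw [Finset.mem_filter] at hQ
          have hQ' := mem_PR.1 hQ.1
          have hcard : Nat.card R < Nat.card Q := by
            apply lt_of_le_of_ne (Subgroup.card_le_of_le hQ.2.le)
            intro h
            exact hQ.2.ne (Subgroup.eq_of_le_of_card_ge hQ.2.le h.ge)
          have hcard2 : Nat.card Q ≤ Nat.card K := Subgroup.card_le_of_le hQ'.le
          exact ihm (Nat.card K - Nat.card Q) (by omega) Q hQ.1 rfl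
        have hcount' : ((p ^ (k - 1) : ℕ) : ℤ) ∣
            (Nat.card {x : K // R.subgroupOf K ⊔ Subgroup.zpowers x ≠ ⊤} : ℤ) := by
          exact_mod_cast hcount
        rw [← hsum] at hcount'
        exact (dvd_add_left hrest).1 hcount'
  intro R hR
  exact inner _ R hR rfl

end

/-! ### Chain counts -/

/-- Chains of subgroups of `K` indexed by `I`, the member with index `c` having order
`p^(s-c)`. -/
def IsCh (p s : ℕ) (I : Finset ℕ) (K : Subgroup G) (U : I → Subgroup G) : Prop :=
  (∀ c : I, Nat.card (U c) = p ^ (s - (c : ℕ))) ∧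
    (∀ c c' : I, (c' : ℕ) ≤ c → U c ≤ U c') ∧ ∀ c, U c ≤ K

/-- The number of chains. -/
noncomputable def NN (p s : ℕ) (I : Finset ℕ) (K : Subgroup G) : ℕ :=
  Nat.card {U : I → Subgroup G // IsCh p s I K U}

/-- The alternating sum of the numbers of chains. -/
noncomputable def bt (p s : ℕ) (J : Finset ℕ) (K : Subgroup G) : ℤ :=
  ∑ I ∈ J.powerset, (-1) ^ I.card * (NN p s I K : ℤ)

theorem NN_eq_zero {p s : ℕ} (hp : 1 < p) (I : Finset ℕ) (K : Subgroup G) (r : ℕ)
    (hK : Nat.card K = p ^ r) (c : ℕ) (hc : c ∈ I) (h : r < s - c) : NN p s I K = 0 := by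
  rw [NN]
  have : IsEmpty {U : I → Subgroup G // IsCh p s I K U} := by
    refine ⟨fun U => ?_⟩
    obtain ⟨U, h1, _, h3⟩ := U
    have h4 := Subgroup.card_le_of_le (h3 ⟨c, hc⟩)
    rw [h1, hK] at h4
    have := (Nat.pow_le_pow_iff_right hp).1 h4
    change s - c ≤ r at this
    omega
  exact Nat.card_of_isEmpty

/-- Only the indices of subgroups that fit matter. -/
theorem bt_eq {p s : ℕ} (hp : 1 < p) (J : Finset ℕ) (K : Subgroup G) (r : ℕ)
    (hK : Nat.card K = p ^ r) : bt p s J K = bt p s (J.filter (fun c => s - c ≤ r)) K := by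
  rw [bt, bt]
  symm
  apply Finset.sum_subset
  · exact Finset.powerset_mono.2 (Finset.filter_subset _ _)
  · intro I hI hI'
    rw [Finset.mem_powerset] at hI hI'
    have : ∃ c ∈ I, r < s - c := by
      by_contra hcon
      push Not at hcon
      apply hI'
      intro c hc
      rw [Finset.mem_filter]
      exact ⟨hI hc, hcon c hc⟩
    obtain ⟨c, hc, h⟩ := this
    rw [NN_eq_zero hp I K r hK c hc h]
    simp

/-- Inserting the index of the whole group does not change the number of chains. -/
theorem NN_insert {p s : ℕ} (I : Finset ℕ) (K : Subgroup G) (c0 : ℕ)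
    (hK : Nat.card K = p ^ (s - c0)) (hI : ∀ c ∈ I, c0 < c) :
    NN p s (insert c0 I) K = NN p s I K := by
  classical
  rw [NN, NN]
  apply Nat.card_congr
  refine ⟨fun U => ⟨fun c => U.1 ⟨c, Finset.mem_insert_of_mem c.2⟩, ?_⟩,
    fun V => ⟨fun c => if h : (c : ℕ) ∈ I then V.1 ⟨c, h⟩ else K, ?_⟩, ?_, ?_⟩
  · obtain ⟨U, h1, h2, h3⟩ := U
    exact ⟨fun c => h1 _, fun c c' h => h2 _ _ h, fun c => h3 _⟩
  · obtain ⟨V, h1, h2, h3⟩ := V
    have hc : ∀ c : (insert c0 I : Finset ℕ), (c : ℕ) ∉ I → (c : ℕ) = c0 := by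
      intro c hc
      rcases Finset.mem_insert.1 c.2 with h | h
      · exact h
      · exact absurd h hc
    refine ⟨?_, ?_, ?_⟩
    · intro c
      by_cases h : (c : ℕ) ∈ I
      · simp only [h, dif_pos]; exact h1 _
      · simp only [h, dif_neg, not_false_eq_true]; rw [hK, hc c h]
    · intro c c' hcc
      by_cases h : (c : ℕ) ∈ I
      · by_cases h' : (c' : ℕ) ∈ I
        · simp only [h, h', dif_pos]; exact h2 _ _ hcc
        · simp only [h, h', dif_pos, dif_neg, not_false_eq_true]; exact h3 _
      · by_cases h' : (c' : ℕ) ∈ I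
        · exfalso
          have := hI _ h'
          rw [hc c h] at hcc
          omega
        · simp only [h, h', dif_neg, not_false_eq_true]; exact le_rfl
    · intro c
      by_cases h : (c : ℕ) ∈ I
      · simp only [h, dif_pos]; exact h3 _
      · simp only [h, dif_neg, not_false_eq_true]; exact le_rfl
  · rintro ⟨U, h1, h2, h3⟩
    apply Subtype.ext
    funext c
    by_cases h : (c : ℕ) ∈ I
    · simp only [h, dif_pos]
    · simp only [h, dif_neg, not_false_eq_true]
      have hc : (c : ℕ) = c0 := by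
        rcases Finset.mem_insert.1 c.2 with h' | h'
        · exact h'
        · exact absurd h' h
      symm
      apply Subgroup.eq_of_le_of_card_ge (h3 c)
      rw [h1, hK, hc]
  · rintro ⟨V, h1, h2, h3⟩
    apply Subtype.ext
    funext c
    simp only [c.2, dif_pos]

/-- If the index of the whole group belongs to `J` then the alternating sum vanishes. -/
theorem bt_eq_zero {p s : ℕ} (J : Finset ℕ) (K : Subgroup G) (c0 : ℕ) (hc0 : c0 ∈ J)
    (hK : Nat.card K = p ^ (s - c0)) (hJ : ∀ c ∈ J, c ≤ s ∧ s - c ≤ s - c0) (hc0s : c0 ≤ s) :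
    bt p s J K = 0 := by
  classical
  have h1 : J = insert c0 (J.erase c0) := (Finset.insert_erase hc0).symm
  rw [bt, h1, Finset.sum_powerset_insert (Finset.notMem_erase c0 J), ← Finset.sum_add_distrib]
  apply Finset.sum_eq_zero
  intro I hI
  rw [Finset.mem_powerset] at hI
  have hc0I : c0 ∉ I := fun h => Finset.notMem_erase c0 J (hI h)
  rw [NN_insert I K c0 hK, Finset.card_insert_of_notMem hc0I, pow_succ]
  · ring
  · intro c hc
    have h2 := Finset.mem_erase.1 (hI hc)
    have h3 := hJ c h2.2
    have h4 := h2.1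
    omega

section
open Classical

/-- The inclusion-exclusion formula. -/
theorem bt_sum {p s : ℕ} (J : Finset ℕ) (K : Subgroup G) (S : Finset (Subgroup G))
    (hSK : ∀ R ∈ S, R ≤ K)
    (htop : ∀ I ⊆ J, ∀ U : I → Subgroup G, IsCh p s I K U → (⨆ c, U c) ∈ S) :
    bt p s J K = ∑ R ∈ S, wt S R * bt p s J R := by
  have := Fintype.ofFinite (Subgroup G)
  have key : ∀ I ⊆ J, (NN p s I K : ℤ) = ∑ R ∈ S, wt S R * (NN p s I R : ℤ) := by
    intro I hI
    have h1 : ∀ R : Subgroup G, (NN p s I R : ℤ) =
        ∑ U : I → Subgroup G, if IsCh p s I R U then (1 : ℤ) else 0 := by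
      intro R
      rw [NN, Finset.sum_boole, Nat.card_eq_fintype_card, Fintype.card_subtype]
    rw [h1 K]
    have h2 : ∑ R ∈ S, wt S R * (NN p s I R : ℤ) =
        ∑ U : I → Subgroup G, ∑ R ∈ S, if IsCh p s I R U then wt S R else 0 := by
      rw [Finset.sum_comm]
      apply Finset.sum_congr rfl
      intro R _
      rw [h1 R, Finset.mul_sum]
      apply Finset.sum_congr rfl
      intro U _
      split_ifs <;> simp
    rw [h2]
    apply Finset.sum_congr rfl
    intro U _
    rw [← Finset.sum_filter]
    split_ifs with hU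
    · rw [← wt_sum S (htop I hI U hU)]
      symm
      apply Finset.sum_congr _ (fun _ _ => rfl)
      ext R
      simp only [Finset.mem_filter, iSup_le_iff]
      constructor
      · rintro ⟨hR, h3⟩
        exact ⟨hR, h3.2.2⟩
      · rintro ⟨hR, h3⟩
        exact ⟨hR, hU.1, hU.2.1, h3⟩
    · symm
      apply Finset.sum_eq_zero
      intro R hR
      exfalso
      rw [Finset.mem_filter] at hR
      exact hU ⟨hR.2.1, hR.2.2.1, fun c => (hR.2.2.2 c).trans (hSK R hR.1)⟩
  rw [bt]
  have h3 : ∑ I ∈ J.powerset, (-1 : ℤ) ^ I.card * (NN p s I K : ℤ) =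
      ∑ I ∈ J.powerset, ∑ R ∈ S, wt S R * ((-1) ^ I.card * (NN p s I R : ℤ)) := by
    apply Finset.sum_congr rfl
    intro I hI
    rw [key I (Finset.mem_powerset.1 hI), Finset.mul_sum]
    apply Finset.sum_congr rfl
    intro R _
    ring
  rw [h3, Finset.sum_comm]
  apply Finset.sum_congr rfl
  intro R _
  rw [bt, Finset.mul_sum]

/-- The supremum of a chain is trivial or a member of the chain. -/
theorem iSup_chain {p s : ℕ} (I : Finset ℕ) (K : Subgroup G) (U : I → Subgroup G)
    (hU : IsCh p s I K U) : (I = ∅ ∧ (⨆ c, U c) = ⊥) ∨ ∃ c : I, (⨆ c, U c) = U c := by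
  rcases I.eq_empty_or_nonempty with rfl | hI
  · left
    refine ⟨rfl, ?_⟩
    have : IsEmpty (∅ : Finset ℕ) := ⟨fun x => absurd x.2 (Finset.notMem_empty _)⟩
    exact iSup_of_empty U
  · right
    refine ⟨⟨I.min' hI, I.min'_mem hI⟩, le_antisymm ?_ (le_iSup U _)⟩
    apply iSup_le
    intro c
    exact hU.2.1 _ _ (I.min'_le _ c.2)

theorem card_filter_le (s k r : ℕ) (J : Finset ℕ) (hJ : ∀ c ∈ J, c ≤ s ∧ s - c < k) :
    J.card ≤ (J.filter (fun c => s - c ≤ r)).card + (k - 1 - r) := by
  rw [← Finset.card_filter_add_card_filter_not (s := J) (fun c => s - c ≤ r)]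
  apply Nat.add_le_add_left
  have h1 : (J.filter (fun c => ¬ s - c ≤ r)).card ≤ (Finset.Ioc r (k - 1)).card := by
    apply Finset.card_le_card_of_injOn (fun c => s - c)
    · intro c hc
      simp only [Finset.coe_filter, Set.mem_ofPred_eq, not_le] at hc
      have := hJ c hc.1
      simp only [Finset.coe_Ioc, Set.mem_Ioc]
      omega
    · intro c hc c' hc' h
      simp only [Finset.coe_filter, Set.mem_ofPred_eq, not_le] at hc hc'
      have h2 := hJ c hc.1
      have h3 := hJ c' hc'.1
      have h4 : s - c = s - c' := h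
      omega
  rw [Nat.card_Ioc] at h1
  exact h1

/-- The congruence for `p`-groups. -/
theorem bt_pgroup (p s : ℕ) [hp : Fact p.Prime] (k : ℕ) : ∀ K : Subgroup G,
    Nat.card K = p ^ k → ∀ J : Finset ℕ, (∀ c ∈ J, c ≤ s ∧ s - c ≤ k) →
      ((p ^ J.card : ℕ) : ℤ) ∣ bt p s J K := by
  have hFin := Fintype.ofFinite (Subgroup G)
  induction k using Nat.strong_induction_on with
  | _ k ih =>
    intro K hK J hJ
    by_cases hex : ∃ c0 ∈ J, s - c0 = k
    · obtain ⟨c0, hc0, hk⟩ := hex
      rw [bt_eq_zero J K c0 hc0 (by rw [hK, hk]) (fun c hc => by rw [hk]; exact hJ c hc)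
        (hJ c0 hc0).1]
      exact dvd_zero _
    · push Not at hex
      have hJ' : ∀ c ∈ J, c ≤ s ∧ s - c < k := by
        intro c hc
        have h1 := hJ c hc
        have h2 := hex c hc
        omega
      rcases J.eq_empty_or_nonempty with rfl | hJne
      · simp
      obtain ⟨c1, hc1⟩ := hJne
      have hk1 : 1 ≤ k := by have := hJ' c1 hc1; omega
      have hbot : (⊥ : Subgroup G) < K := by
        rw [bot_lt_iff_ne_bot]
        intro h
        rw [h, Subgroup.card_bot] at hK
        have := Nat.one_lt_pow (by omega : k ≠ 0) hp.out.one_lt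
        omega
      have hS : bt p s J K = ∑ R ∈ PR K, wt (PR K) R * bt p s J R := by
        apply bt_sum J K (PR K) (fun R hR => (mem_PR.1 hR).le)
        intro I hI U hU
        rw [mem_PR]
        rcases iSup_chain I K U hU with ⟨-, h⟩ | ⟨c, h⟩
        · rw [h]; exact hbot
        · rw [h]
          apply lt_of_le_of_ne (hU.2.2 c)
          intro h2
          have h3 := hU.1 c
          rw [h2, hK] at h3
          have h4 := Nat.pow_right_injective hp.out.two_le h3
          have h5 := hJ' c (hI c.2)
          omega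
      rw [hS]
      apply Finset.dvd_sum
      intro R hR
      have hRK := mem_PR.1 hR
      obtain ⟨r, hr⟩ := IsPGroup.iff_card.1
        ((IsPGroup.iff_card.2 ⟨k, hK⟩ : IsPGroup p K).to_le hRK.le)
      have hrk : r < k := by
        have h1 : Nat.card R < Nat.card K := by
          apply lt_of_le_of_ne (Subgroup.card_le_of_le hRK.le)
          intro h
          exact hRK.ne (Subgroup.eq_of_le_of_card_ge hRK.le h.ge)
        rw [hr, hK] at h1
        exact (Nat.pow_lt_pow_iff_right hp.out.one_lt).1 h1
      have h1 := brown_proper p K k hK R hR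
      rw [hr] at h1
      have h2 : ((p ^ (k - 1 - r) : ℕ) : ℤ) ∣ wt (PR K) R := by
        have h3 : p ^ (k - 1) = p ^ r * p ^ (k - 1 - r) := by
          rw [← pow_add]; congr 1; omega
        rw [h3] at h1
        push_cast at h1 ⊢
        exact (mul_dvd_mul_iff_left (pow_ne_zero r (by exact_mod_cast hp.out.ne_zero))).1 h1
      have h4 : ((p ^ (J.filter (fun c => s - c ≤ r)).card : ℕ) : ℤ) ∣ bt p s J R := by
        rw [bt_eq hp.out.one_lt J R r hr]
        apply ih r hrk R hr
        intro c hc
        rw [Finset.mem_filter] at hc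
        exact ⟨(hJ c hc.1).1, hc.2⟩
      have h5 : ((p ^ J.card : ℕ) : ℤ) ∣ ((p ^ (k - 1 - r) : ℕ) : ℤ) *
          ((p ^ (J.filter (fun c => s - c ≤ r)).card : ℕ) : ℤ) := by
        have h6 := card_filter_le s k r J hJ'
        have h7 : p ^ J.card ∣ p ^ (k - 1 - r) * p ^ (J.filter (fun c => s - c ≤ r)).card := by
          rw [← pow_add]
          exact pow_dvd_pow p (by omega)
        exact_mod_cast h7
      exact h5.trans (mul_dvd_mul h2 h4)

end

end Pool.Agent.Q100.Chain
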