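import Mathlib

set_option autoImplicit false

/-!
Weights on finite posets: the function `wt S` with `∑_{q ∈ S, u ≤ q} wt S q = 1` for `u ∈ S`.
-/

namespace Pool.Agent.Q100.Chain

open Classical in
/-- The weights of a finite poset. -/
noncomputable def wt {α : Type*} [PartialOrder α] (S : Finset α) (u : α) : ℤ :=
  1 - ∑ q ∈ (S.filter (u < ·)).attach, wt S q.1
termination_by (S.filter (u < ·)).card
decreasing_by
  apply Finset.card_lt_card
  rw [Finset.ssubset_iff_of_subset]
  · exact ⟨q.1, q.2, fun h => lt_irrefl _ (Finset.mem_filter.1 h).2⟩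
  · intro x hx
    rw [Finset.mem_filter] at hx ⊢
    exact ⟨hx.1, (Finset.mem_filter.1 q.2).2.trans hx.2⟩

open Classical in
theorem wt_eq {α : Type*} [PartialOrder α] (S : Finset α) (u : α) :
    wt S u = 1 - ∑ q ∈ S.filter (u < ·), wt S q := by
  rw [wt]
  congr 1
  exact Finset.sum_attach (S.filter (u < ·)) (wt S)

open Classical in
theorem wt_sum {α : Type*} [PartialOrder α] (S : Finset α) {u : α} (hu : u ∈ S) :
    ∑ q ∈ S.filter (u ≤ ·), wt S q = 1 := by
  have h : S.filter (u ≤ ·) = insert u (S.filter (u < ·)) := by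
    ext x
    simp only [Finset.mem_filter, Finset.mem_insert]
    constructor
    · rintro ⟨h1, h2⟩
      rcases eq_or_lt_of_le h2 with h | h
      · exact Or.inl h.symm
      · exact Or.inr ⟨h1, h⟩
    · rintro (rfl | ⟨h1, h2⟩)
      · exact ⟨hu, le_rfl⟩
      · exact ⟨h1, h2.le⟩
  rw [h, Finset.sum_insert (by simp), wt_eq S u]
  ring

open Classical in
theorem wt_unique {α : Type*} [PartialOrder α] (S : Finset α) (f : α → ℤ)
    (hf : ∀ u ∈ S, ∑ q ∈ S.filter (u ≤ ·), f q = 1) : ∀ u ∈ S, f u = wt S u := by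
  have key : ∀ n : ℕ, ∀ u ∈ S, (S.filter (u < ·)).card = n → f u = wt S u := by
    intro n
    induction n using Nat.strong_induction_on with
    | _ n ih =>
      intro u hu hn
      have h : S.filter (u ≤ ·) = insert u (S.filter (u < ·)) := by
        ext x
        simp only [Finset.mem_filter, Finset.mem_insert]
        constructor
        · rintro ⟨h1, h2⟩
          rcases eq_or_lt_of_le h2 with h | h
          · exact Or.inl h.symm
          · exact Or.inr ⟨h1, h⟩
        · rintro (rfl | ⟨h1, h2⟩)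
          · exact ⟨hu, le_rfl⟩
          · exact ⟨h1, h2.le⟩
      have h1 := hf u hu
      rw [h, Finset.sum_insert (by simp)] at h1
      rw [wt_eq S u]
      have h2 : ∑ q ∈ S.filter (u < ·), f q = ∑ q ∈ S.filter (u < ·), wt S q := by
        apply Finset.sum_congr rfl
        intro q hq
        rw [Finset.mem_filter] at hq
        apply ih _ _ q hq.1 rfl
        rw [← hn]
        apply Finset.card_lt_card
        rw [Finset.ssubset_iff_of_subset]
        · exact ⟨q, Finset.mem_filter.2 hq, fun h => lt_irrefl _ (Finset.mem_filter.1 h).2⟩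
        · intro x hx
          rw [Finset.mem_filter] at hx ⊢
          exact ⟨hx.1, hq.2.trans hx.2⟩
      rw [h2] at h1
      linarith
  intro u hu
  exact key _ u hu rfl

open Classical in
/-- The normaliser trick. -/
theorem wt_retract {α : Type*} [PartialOrder α] (S T : Finset α) (r : α) (hrS : r ∈ S)
    (hrT : r ∈ T) (hTS : T ⊆ S) (hT : ∀ v ∈ T, r ≤ v) (ν : α → α)
    (h1 : ∀ q ∈ S, r ≤ q → ν q ∈ T) (h2 : ∀ q ∈ S, r ≤ q → ∀ v ∈ T, v ≤ ν q ↔ v ≤ q)
    (h3 : ∀ q ∈ S, r ≤ q → ν q = r → q = r) : wt S r = wt T r := by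
  let f : α → ℤ := fun v => ∑ q ∈ (S.filter (r ≤ ·)).filter (ν · = v), wt S q
  have hf : ∀ u ∈ T, ∑ v ∈ T.filter (u ≤ ·), f v = 1 := by
    intro u hu
    have e1 : ∑ v ∈ T.filter (u ≤ ·), f v =
        ∑ q ∈ (S.filter (r ≤ ·)).filter (fun q => u ≤ ν q), wt S q := by
      have e2 : ∀ q ∈ (S.filter (r ≤ ·)).filter (fun q => u ≤ ν q),
          ν q ∈ T.filter (u ≤ ·) := by
        intro q hq
        simp only [Finset.mem_filter] at hq ⊢
        exact ⟨h1 q hq.1.1 hq.1.2, hq.2⟩
      rw [← Finset.sum_fiberwise_of_maps_to e2]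
      apply Finset.sum_congr rfl
      intro v hv
      simp only [Finset.mem_filter] at hv
      apply Finset.sum_congr _ (fun _ _ => rfl)
      ext q
      simp only [Finset.mem_filter]
      constructor
      · rintro ⟨hq1, hq2⟩
        exact ⟨⟨hq1, by rw [hq2]; exact hv.2⟩, hq2⟩
      · rintro ⟨⟨hq1, -⟩, hq2⟩
        exact ⟨hq1, hq2⟩
    rw [e1, ← wt_sum S (hTS hu)]
    apply Finset.sum_congr _ (fun _ _ => rfl)
    ext q
    simp only [Finset.mem_filter]
    constructor
    · rintro ⟨⟨hq1, hq2⟩, hq3⟩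
      exact ⟨hq1, (h2 q hq1 hq2 u hu).1 hq3⟩
    · rintro ⟨hq1, hq2⟩
      have hq3 := (hT u hu).trans hq2
      exact ⟨⟨hq1, hq3⟩, (h2 q hq1 hq3 u hu).2 hq2⟩
  have h4 := wt_unique T f hf r hrT
  rw [← h4]
  have h5 : (S.filter (r ≤ ·)).filter (ν · = r) = {r} := by
    ext q
    simp only [Finset.mem_filter, Finset.mem_singleton]
    constructor
    · rintro ⟨⟨hq1, hq2⟩, hq3⟩
      exact h3 q hq1 hq2 hq3
    · rintro rfl
      refine ⟨⟨hrS, le_rfl⟩, ?_⟩
      have h6 := h1 q hrS le_rfl
      apply le_antisymm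
      · exact ((h2 q hrS le_rfl _ h6).1 le_rfl)
      · exact hT _ h6
  simp only [f]
  rw [h5, Finset.sum_singleton]

open Classical in
/-- The weight only depends on the elements above. -/
theorem wt_upper {α : Type*} [PartialOrder α] (S T : Finset α) (r : α) (hrS : r ∈ S)
    (hTS : ∀ v, v ∈ T ↔ v ∈ S ∧ r ≤ v) : wt S r = wt T r := by
  apply wt_retract S T r hrS ((hTS r).2 ⟨hrS, le_rfl⟩) (fun v hv => ((hTS v).1 hv).1)
    (fun v hv => ((hTS v).1 hv).2) id
  · intro q hq hrq
    exact (hTS q).2 ⟨hq, hrq⟩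
  · intro q _ _ v _
    exact Iff.rfl
  · intro q _ _ h
    exact h

open Classical in
/-- If there is a largest element then all other weights vanish. -/
theorem wt_top {α : Type*} [PartialOrder α] (T : Finset α) (m : α) (hm : m ∈ T)
    (h : ∀ v ∈ T, v ≤ m) (u : α) (hu : u ∈ T) (hum : u ≠ m) : wt T u = 0 := by
  have h1 : ∀ u ∈ T, ∑ q ∈ T.filter (u ≤ ·), (if q = m then (1 : ℤ) else 0) = 1 := by
    intro v hv
    rw [Finset.sum_ite_eq' _ m]
    simp [hm, h v hv]
  have h2 := wt_unique T _ h1 u hu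
  rw [← h2]
  simp [hum]

open Classical in
/-- Invariance of the weights under an automorphism. -/
theorem wt_map {α : Type*} [PartialOrder α] (S : Finset α) (e : α ≃o α)
    (he : ∀ x, e x ∈ S ↔ x ∈ S) (u : α) (hu : u ∈ S) : wt S (e u) = wt S u := by
  refine wt_unique S (fun x => wt S (e x)) ?_ u hu
  intro v hv
  rw [← wt_sum S ((he v).2 hv)]
  apply Finset.sum_bij (fun q _ => e q)
  · intro q hq
    simp only [Finset.mem_filter] at hq ⊢
    exact ⟨(he q).2 hq.1, e.monotone hq.2⟩
  · intro a _ b _ hab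
    exact e.injective hab
  · intro b hb
    simp only [Finset.mem_filter] at hb
    refine ⟨e.symm b, ?_, by simp⟩
    simp only [Finset.mem_filter]
    refine ⟨?_, ?_⟩
    · rw [← he]; simpa using hb.1
    · rw [← e.le_iff_le]; simpa using hb.2
  · intro q _
    rfl

/-- Summation of an invariant function over orbits. -/
theorem dvd_sum_orbits {A X : Type*} [Group A] [Finite A] [MulAction A X] (f : X → ℤ) (m : ℤ)
    (n : ℕ) : ∀ S : Finset X, S.card = n → (∀ (a : A), ∀ x ∈ S, a • x ∈ S) →
      (∀ (a : A), ∀ x ∈ S, f (a • x) = f x) →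
      (∀ x ∈ S, m ∣ (Nat.card (MulAction.orbit A x) : ℤ) * f x) → m ∣ ∑ x ∈ S, f x := by
  classical
  induction n using Nat.strong_induction_on with
  | _ n ih =>
    intro S hn hS hf h
    rcases S.eq_empty_or_nonempty with rfl | ⟨x, hx⟩
    · simp
    · have hfin : (MulAction.orbit A x).Finite := Set.finite_range _
      set O : Finset X := hfin.toFinset with hO
      have hmemO : ∀ y, y ∈ O ↔ y ∈ MulAction.orbit A x := fun y => hfin.mem_toFinset
      have hOS : O ⊆ S := by
        intro y hy
        obtain ⟨a, rfl⟩ := (hmemO y).1 hy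
        exact hS a x hx
      rw [← Finset.sum_sdiff hOS]
      apply dvd_add
      · apply ih (S \ O).card _ (S \ O) rfl
        · intro a y hy
          rw [Finset.mem_sdiff, hmemO] at hy ⊢
          refine ⟨hS a y hy.1, fun h2 => hy.2 ?_⟩
          obtain ⟨b, hb⟩ := h2
          exact ⟨a⁻¹ * b, by change (a⁻¹ * b) • x = y; rw [mul_smul, show b • x = a • y from hb, inv_smul_smul]⟩
        · intro a y hy
          exact hf a y (Finset.mem_sdiff.1 hy).1
        · intro y hy
          exact h y (Finset.mem_sdiff.1 hy).1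
        · rw [← hn]
          apply Finset.card_lt_card
          rw [Finset.ssubset_iff_of_subset Finset.sdiff_subset]
          refine ⟨x, hx, fun h2 => ?_⟩
          rw [Finset.mem_sdiff, hmemO] at h2
          exact h2.2 (MulAction.mem_orbit_self x)
      · have h1 : ∑ y ∈ O, f y = O.card • f x := by
          apply Finset.sum_eq_card_nsmul
          intro y hy
          obtain ⟨a, rfl⟩ := (hmemO y).1 hy
          exact hf a x hx
        rw [h1, nsmul_eq_mul]
        have h2 : O.card = Nat.card (MulAction.orbit A x) := by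
          rw [hO, ← Nat.card_eq_card_finite_toFinset hfin]
        rw [h2]
        exact h x hx

end Pool.Agent.Q100.Chain
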