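import Pool.Agent.Q100.Chain.Poset
import Pool.Agent.Q117.Fr.Hall

set_option autoImplicit false

/-!
Weights of `p`-subgroups of a finite group: Brown's theorem in the form
`|N_K(R)|_p` divides `|R| wt(R)`, and the corresponding statement for the proper subgroups of a
`p`-group.
-/

namespace Pool.Agent.Q100.Chain

open scoped Pointwise

variable {G : Type} [Group G] [Finite G]

/-- The normaliser of a subgroup. -/
abbrev nz (R : Subgroup G) : Subgroup G := Subgroup.normalizer (R : Set G)

omit [Finite G] in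
theorem conj_smul_eq_iff (x : G) (R : Subgroup G) : MulAut.conj x • R = R ↔ x ∈ nz R := by
  rw [Subgroup.mem_normalizer_iff]
  constructor
  · intro h y
    constructor
    · intro hy
      have : (MulAut.conj x) y ∈ MulAut.conj x • R := Subgroup.smul_mem_pointwise_smul _ _ _ hy
      rw [h] at this
      exact this
    · intro hy
      rw [← h] at hy
      obtain ⟨z, hz, e⟩ := hy
      have e' : x * z * x⁻¹ = x * y * x⁻¹ := e
      have : z = y := by
        have := congrArg (fun w => x⁻¹ * w * x) e'
        simpa [mul_assoc] using this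
      rw [← this]; exact hz
  · intro h
    ext y
    constructor
    · rintro ⟨z, hz, rfl⟩
      exact (h z).1 hz
    · intro hy
      refine ⟨x⁻¹ * y * x, ?_, by simp [mul_assoc]⟩
      have := (h (x⁻¹ * y * x)).2 (by simpa [mul_assoc] using hy)
      exact this

/-- The conjugation action of a subgroup on the set of all subgroups. -/
@[reducible] noncomputable def cact (K : Subgroup G) : MulAction K (Subgroup G) :=
  MulAction.compHom (Subgroup G) ((MulAut.conj (G := G)).comp K.subtype)

/-- Orbit-stabiliser for conjugation. -/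
theorem card_orbit_mul (K R : Subgroup G) :
    Nat.card (@MulAction.orbit K (Subgroup G) (cact K).toSMul R) *
      Nat.card (K ⊓ nz R : Subgroup G) = Nat.card K := by
  let _ := cact K
  have h : Nat.card (MulAction.orbit K R) * Nat.card (MulAction.stabilizer K R) = Nat.card K := by
    rw [Nat.card_congr (MulAction.orbitEquivQuotientStabilizer K R)]
    exact Subgroup.index_mul_card _
  have h2 : Nat.card (MulAction.stabilizer K R) = Nat.card (K ⊓ nz R : Subgroup G) := by
    have h3 : MulAction.stabilizer K R = (nz R).subgroupOf K := by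
      ext x
      rw [MulAction.mem_stabilizer_iff, Subgroup.mem_subgroupOf]
      exact conj_smul_eq_iff (x : G) R
    rw [h3, ← Subgroup.inf_subgroupOf_left]
    exact Nat.card_congr (Subgroup.subgroupOfEquivOfLe inf_le_left).toEquiv
  rw [← h2]
  rw [← h]

/-- Proper subgroups of `p`-groups are properly contained in their normalisers. -/
theorem eq_of_inf_nz_eq {p : ℕ} [Fact p.Prime] (R Q : Subgroup G) (hQ : IsPGroup p Q) (h : R ≤ Q)
    (h2 : Q ⊓ nz R = R) : Q = R := by
  by_contra hne
  have hlt : R.subgroupOf Q < ⊤ := by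
    rw [lt_top_iff_ne_top]
    intro htop
    rw [Subgroup.subgroupOf_eq_top] at htop
    exact hne (le_antisymm htop h)
  have hnil : Group.IsNilpotent Q := hQ.isNilpotent
  have hnc := Group.normalizerCondition_of_isNilpotent (G := Q) (R.subgroupOf Q) hlt
  obtain ⟨x, hx1, hx2⟩ := SetLike.exists_of_lt hnc
  apply hx2
  rw [Subgroup.mem_subgroupOf, ← h2]
  refine Subgroup.mem_inf.2 ⟨x.2, ?_⟩
  rw [Subgroup.mem_normalizer_iff]
  rw [Subgroup.mem_normalizer_iff] at hx1
  intro y
  constructor
  · intro hy
    have := (hx1 ⟨y, h hy⟩).1 (by rw [Subgroup.mem_subgroupOf]; exact hy)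
    rw [Subgroup.mem_subgroupOf] at this
    exact this
  · intro hy
    have hyQ : y ∈ Q := by
      have h3 : (x : G) * y * (x : G)⁻¹ ∈ Q := h hy
      have := Q.mul_mem (Q.mul_mem (Q.inv_mem x.2) h3) x.2
      simpa [mul_assoc] using this
    have := (hx1 ⟨y, hyQ⟩).2 (by
      rw [Subgroup.mem_subgroupOf]; exact hy)
    rw [Subgroup.mem_subgroupOf] at this
    exact this

section
open Classical

variable [Fintype (Subgroup G)]

/-- The `p`-subgroups of `K`. -/
noncomputable def PS (p : ℕ) (K : Subgroup G) : Finset (Subgroup G) :=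
  Finset.univ.filter (fun Q => Q ≤ K ∧ IsPGroup p Q)

omit [Finite G] in
theorem mem_PS {p : ℕ} {K Q : Subgroup G} : Q ∈ PS p K ↔ Q ≤ K ∧ IsPGroup p Q := by
  simp [PS]

/-- The proper subgroups of `K`. -/
noncomputable def PR (K : Subgroup G) : Finset (Subgroup G) :=
  Finset.univ.filter (fun Q => Q < K)

omit [Finite G] in
theorem mem_PR {K Q : Subgroup G} : Q ∈ PR K ↔ Q < K := by
  simp [PR]

/-- Reduction to the normaliser. -/
theorem wt_PS_nz {p : ℕ} [Fact p.Prime] (K R : Subgroup G) (hR : R ∈ PS p K) :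
    wt (PS p K) R = wt (PS p (K ⊓ nz R)) R := by
  have hR' := mem_PS.1 hR
  have hRK : R ≤ K ⊓ nz R := le_inf hR'.1 Subgroup.le_normalizer
  set T : Finset (Subgroup G) := (PS p (K ⊓ nz R)).filter (R ≤ ·) with hT
  have hmT : ∀ v, v ∈ T ↔ v ∈ PS p (K ⊓ nz R) ∧ R ≤ v := by
    intro v; rw [hT, Finset.mem_filter]
  have hRT : R ∈ T := (hmT R).2 ⟨mem_PS.2 ⟨hRK, hR'.2⟩, le_rfl⟩
  rw [wt_upper (PS p (K ⊓ nz R)) T R (mem_PS.2 ⟨hRK, hR'.2⟩) hmT]
  apply wt_retract (PS p K) T R hR hRT _ (fun v hv => ((hmT v).1 hv).2) (fun q => q ⊓ nz R)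
  · intro q hq hRq
    have hq' := mem_PS.1 hq
    refine (hmT _).2 ⟨mem_PS.2 ⟨inf_le_inf_right _ hq'.1, hq'.2.to_le inf_le_left⟩, ?_⟩
    exact le_inf hRq Subgroup.le_normalizer
  · intro q _ _ v hv
    have hv' := (mem_PS.1 ((hmT v).1 hv).1).1
    constructor
    · intro h; exact h.trans inf_le_left
    · intro h; exact le_inf h (hv'.trans inf_le_right)
  · intro q hq hRq h
    exact eq_of_inf_nz_eq R q (mem_PS.1 hq).2 hRq h
  · intro v hv
    have hv' := mem_PS.1 ((hmT v).1 hv).1
    exact mem_PS.2 ⟨hv'.1.trans inf_le_left, hv'.2⟩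

/-- Weights of non-normal subgroups among the proper subgroups of a `p`-group vanish. -/
theorem wt_PR_nz {p : ℕ} [Fact p.Prime] (K R : Subgroup G) (hK : IsPGroup p K) (hR : R < K)
    (hN : ¬ K ≤ nz R) : wt (PR K) R = 0 := by
  set T : Finset (Subgroup G) := Finset.univ.filter (fun v => R ≤ v ∧ v ≤ K ⊓ nz R) with hT
  have hmT : ∀ v, v ∈ T ↔ R ≤ v ∧ v ≤ K ⊓ nz R := by intro v; rw [hT]; simp
  have hNK : K ⊓ nz R < K := by
    refine lt_of_le_of_ne inf_le_left (fun h => hN ?_)
    rw [← h]; exact inf_le_right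
  have hRN : R ≤ K ⊓ nz R := le_inf hR.le Subgroup.le_normalizer
  have h1 : wt (PR K) R = wt T R := by
    apply wt_retract (PR K) T R (mem_PR.2 hR) ((hmT R).2 ⟨le_rfl, hRN⟩) _
      (fun v hv => ((hmT v).1 hv).1) (fun q => q ⊓ nz R)
    · intro q hq hRq
      exact (hmT _).2 ⟨le_inf hRq Subgroup.le_normalizer, inf_le_inf_right _ (mem_PR.1 hq).le⟩
    · intro q _ _ v hv
      have hv' := ((hmT v).1 hv).2
      constructor
      · intro h; exact h.trans inf_le_left
      · intro h; exact le_inf h (hv'.trans inf_le_right)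
    · intro q hq hRq h
      exact eq_of_inf_nz_eq R q (hK.to_le (mem_PR.1 hq).le) hRq h
    · intro v hv
      exact mem_PR.2 (lt_of_le_of_lt ((hmT v).1 hv).2 hNK)
  rw [h1]
  apply wt_top T (K ⊓ nz R) ((hmT _).2 ⟨hRN, le_rfl⟩) (fun v hv => ((hmT v).1 hv).2) R
    ((hmT R).2 ⟨le_rfl, hRN⟩)
  intro h
  have : K = R := eq_of_inf_nz_eq R K hK hR.le h.symm
  exact hR.ne this.symm

/-- Double counting: `∑_{Q ≥ R} |Q| w(Q)` counts the elements `x` of `K` such that some member of
the family contains `R` and `x`, provided these `x` are those for which `R ⊔ ⟨x⟩` lies in the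
family. -/
theorem sum_card_mul_wt (K R : Subgroup G) (S : Finset (Subgroup G)) (hSK : ∀ Q ∈ S, Q ≤ K)
    (hdown : ∀ Q ∈ S, ∀ V, R ≤ V → V ≤ Q → V ∈ S) :
    ∑ Q ∈ S.filter (R ≤ ·), (Nat.card Q : ℤ) * wt S Q =
      (Nat.card {x : G // x ∈ K ∧ R ⊔ Subgroup.zpowers x ∈ S} : ℤ) := by
  have := Fintype.ofFinite G
  have h1 : ∀ Q ∈ S, (Nat.card Q : ℤ) = ∑ x : G, if x ∈ Q then (1 : ℤ) else 0 := by
    intro Q _
    rw [Finset.sum_boole, Nat.card_eq_fintype_card, Fintype.card_subtype]
  have h2 : ∑ Q ∈ S.filter (R ≤ ·), (Nat.card Q : ℤ) * wt S Q =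
      ∑ x : G, ∑ Q ∈ S.filter (R ≤ ·), if x ∈ Q then wt S Q else 0 := by
    rw [Finset.sum_comm]
    apply Finset.sum_congr rfl
    intro Q hQ
    rw [h1 Q (Finset.mem_filter.1 hQ).1, Finset.sum_mul]
    apply Finset.sum_congr rfl
    intro x _
    split_ifs <;> simp
  rw [h2]
  have h3 : ∀ x : G, (∑ Q ∈ S.filter (R ≤ ·), if x ∈ Q then wt S Q else 0) =
      if x ∈ K ∧ R ⊔ Subgroup.zpowers x ∈ S then 1 else 0 := by
    intro x
    rw [← Finset.sum_filter]
    split_ifs with hx
    · rw [← wt_sum S hx.2]
      apply Finset.sum_congr _ (fun _ _ => rfl)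
      ext Q
      simp only [Finset.mem_filter, sup_le_iff, Subgroup.zpowers_le]
      tauto
    · apply Finset.sum_eq_zero
      intro Q hQ
      exfalso
      simp only [Finset.mem_filter] at hQ
      apply hx
      refine ⟨hSK Q hQ.1.1 hQ.2, hdown Q hQ.1.1 _ le_sup_left ?_⟩
      rw [sup_le_iff, Subgroup.zpowers_le]
      exact ⟨hQ.1.2, hQ.2⟩
  rw [Finset.sum_congr rfl (fun x _ => h3 x), Finset.sum_boole, Nat.card_eq_fintype_card,
    Fintype.card_subtype]


/-- The full `p`-part of a natural number. -/
def pp (p n : ℕ) : ℕ := p ^ n.factorization p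

theorem pp_dvd (p n : ℕ) : pp p n ∣ n := Nat.ordProj_dvd n p

theorem card_eq_pp {p : ℕ} [hp : Fact p.Prime] {Q : Subgroup G} (hQ : IsPGroup p Q) :
    pp p (Nat.card Q) = Nat.card Q := by
  obtain ⟨n, hn⟩ := IsPGroup.iff_card.1 hQ
  rw [pp, hn, hp.out.factorization_pow]
  simp

/-- The number of elements of `p`-power order of `K` is divisible by the `p`-part of `|K|`. -/
theorem frob (p : ℕ) [hp : Fact p.Prime] (K : Subgroup G) :
    pp p (Nat.card K) ∣ Nat.card {x : G // x ∈ K ∧ ∃ k : ℕ, x ^ p ^ k = 1} := by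
  set k := pp p (Nat.card K) with hk
  set l := Nat.card K / k with hl
  have hkd : k ∣ Nat.card K := pp_dvd p _
  have hkl : k * l = Nat.card K := Nat.mul_div_cancel' hkd
  have hK0 : Nat.card K ≠ 0 := Nat.card_pos.ne'
  have hcop : Nat.Coprime k l := by
    rw [hk, pp, hl, hk, pp]
    exact Nat.Coprime.pow_left _ (Nat.coprime_ordCompl hp.out hK0)
  have h1 := Pool.Agent.Q117.Fr.frobenius hcop (Nat.card K) K le_rfl (by rw [hkl])
  rw [Nat.gcd_eq_right hkd] at h1
  have h2 : Nat.card {x : G // x ∈ K ∧ ∃ k : ℕ, x ^ p ^ k = 1} = Pool.Agent.Q117.Fr.sol K k := by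
    rw [Pool.Agent.Q117.Fr.sol]
    apply Nat.card_congr
    refine ⟨fun x => ⟨⟨x.1, x.2.1⟩, ?_⟩, fun x => ⟨(x.1 : G), x.1.2, ?_⟩, ?_, ?_⟩
    · obtain ⟨x, hx, m, hm⟩ := x
      ext1
      change x ^ k = 1
      have h3 : orderOf (⟨x, hx⟩ : K) ∣ p ^ m := by
        apply orderOf_dvd_of_pow_eq_one
        ext1
        exact hm
      have h4 : orderOf (⟨x, hx⟩ : K) ∣ Nat.card K := orderOf_dvd_natCard _
      obtain ⟨j, -, hj⟩ := (Nat.dvd_prime_pow hp.out).1 h3
      have h5 : orderOf (⟨x, hx⟩ : K) ∣ k := by
        rw [hj] at h4 ⊢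
        rw [hk, pp]
        exact pow_dvd_pow p ((hp.out.pow_dvd_iff_le_factorization hK0).1 h4)
      exact congrArg Subtype.val (orderOf_dvd_iff_pow_eq_one.1 h5)
    · refine ⟨(Nat.card K).factorization p, ?_⟩
      have := congrArg Subtype.val x.2
      simpa [hk, pp] using this
    · intro x; rfl
    · intro x; rfl
  rw [h2]
  exact h1

theorem PS_conj {p : ℕ} (K : Subgroup G) (a : G) (ha : a ∈ K) (Q : Subgroup G) (h : Q ∈ PS p K) :
    MulAut.conj a • Q ∈ PS p K := by
  rw [mem_PS] at h ⊢
  refine ⟨?_, ?_⟩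
  · rintro _ ⟨y, hy, rfl⟩
    exact mul_mem (mul_mem ha (h.1 hy)) (inv_mem ha)
  · exact h.2.map _

/-- Conjugation as an automorphism of the poset of subgroups. -/
noncomputable def conjIso (a : G) : Subgroup G ≃o Subgroup G where
  toFun Q := MulAut.conj a • Q
  invFun Q := MulAut.conj a⁻¹ • Q
  left_inv Q := by
    simp only
    rw [← mul_smul, ← map_mul, inv_mul_cancel, map_one, one_smul]
  right_inv Q := by
    simp only
    rw [← mul_smul, ← map_mul, mul_inv_cancel, map_one, one_smul]
  map_rel_iff' := by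
    intro A B
    exact Subgroup.pointwise_smul_le_pointwise_smul_iff

theorem wt_conj {p : ℕ} (K : Subgroup G) (a : G) (ha : a ∈ K) (Q : Subgroup G)
    (h : Q ∈ PS p K) : wt (PS p K) (MulAut.conj a • Q) = wt (PS p K) Q := by
  apply wt_map (PS p K) (conjIso a) _ Q h
  intro x
  constructor
  · intro hx
    have := PS_conj K a⁻¹ (inv_mem ha) _ hx
    have e : MulAut.conj a⁻¹ • (conjIso a x) = x := (conjIso a).left_inv x
    rwa [e] at this
  · intro hx
    exact PS_conj K a ha x hx

/-- Brown's theorem: `|N_K(R)|_p` divides `|R| wt(R)`. -/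
theorem brown (p : ℕ) [hp : Fact p.Prime] (n : ℕ) : ∀ K : Subgroup G, Nat.card K = n →
    ∀ R ∈ PS p K, ((pp p (Nat.card (K ⊓ nz R : Subgroup G)) : ℕ) : ℤ) ∣
      (Nat.card R : ℤ) * wt (PS p K) R := by
  induction n using Nat.strong_induction_on with
  | _ n ih =>
    intro K hKn
    have inner : ∀ m : ℕ, ∀ R ∈ PS p K, Nat.card K - Nat.card R = m →
        ((pp p (Nat.card (K ⊓ nz R : Subgroup G)) : ℕ) : ℤ) ∣
          (Nat.card R : ℤ) * wt (PS p K) R := by
      intro m
      induction m using Nat.strong_induction_on with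
      | _ m ihm =>
        intro R hR hm
        have hR' := mem_PS.1 hR
        by_cases hN : K ≤ nz R
        swap
        · -- reduction to the normaliser
          have hlt : K ⊓ nz R < K := by
            refine lt_of_le_of_ne inf_le_left (fun h => hN ?_)
            rw [← h]; exact inf_le_right
          have hc : Nat.card (K ⊓ nz R : Subgroup G) < n := by
            rw [← hKn]
            apply lt_of_le_of_ne (Subgroup.card_le_of_le hlt.le)
            intro h
            exact hlt.ne (Subgroup.eq_of_le_of_card_ge hlt.le h.ge)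
          have hR2 : R ∈ PS p (K ⊓ nz R) := mem_PS.2 ⟨le_inf hR'.1 Subgroup.le_normalizer, hR'.2⟩
          have h1 := ih _ hc (K ⊓ nz R) rfl R hR2
          rw [inf_assoc, inf_idem] at h1
          rw [wt_PS_nz K R hR]
          exact h1
        · -- the normal case
          have hinf : K ⊓ nz R = K := inf_eq_left.2 hN
          rw [hinf]
          have hsum := sum_card_mul_wt K R (PS p K) (fun Q hQ => (mem_PS.1 hQ).1)
            (fun Q hQ V _ hVQ => mem_PS.2 ⟨hVQ.trans (mem_PS.1 hQ).1, (mem_PS.1 hQ).2.to_le hVQ⟩)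
          have hset : Nat.card {x : G // x ∈ K ∧ R ⊔ Subgroup.zpowers x ∈ PS p K} =
              Nat.card {x : G // x ∈ K ∧ ∃ k : ℕ, x ^ p ^ k = 1} := by
            apply Nat.card_congr
            apply Equiv.subtypeEquivRight
            intro x
            constructor
            · rintro ⟨h1, h2⟩
              refine ⟨h1, ?_⟩
              have h3 := (mem_PS.1 h2).2
              have h4 : x ∈ R ⊔ Subgroup.zpowers x :=
                (le_sup_right : Subgroup.zpowers x ≤ R ⊔ Subgroup.zpowers x)
                  (Subgroup.mem_zpowers x)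
              obtain ⟨k, hk⟩ := h3 ⟨x, h4⟩
              exact ⟨k, by simpa using congrArg Subtype.val hk⟩
            · rintro ⟨h1, k, hk⟩
              refine ⟨h1, mem_PS.2 ⟨sup_le hR'.1 (by rwa [Subgroup.zpowers_le]), ?_⟩⟩
              have hz : IsPGroup p (Subgroup.zpowers x) := by
                apply IsPGroup.iff_card.2
                rw [Nat.card_zpowers]
                obtain ⟨j, -, hj⟩ := (Nat.dvd_prime_pow hp.out).1 (orderOf_dvd_of_pow_eq_one hk)
                exact ⟨j, hj⟩
              rw [sup_comm]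
              exact hz.to_sup_of_normal_right' hR'.2 (by
                rw [Subgroup.zpowers_le]; exact hN h1)
          rw [hset] at hsum
          have hfrob := frob p K
          have hsplit : (PS p K).filter (R ≤ ·) = insert R ((PS p K).filter (R < ·)) := by
            ext x
            simp only [Finset.mem_filter, Finset.mem_insert]
            constructor
            · rintro ⟨h1, h2⟩
              rcases eq_or_lt_of_le h2 with h | h
              · exact Or.inl h.symm
              · exact Or.inr ⟨h1, h⟩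
            · rintro (rfl | ⟨h1, h2⟩)
              · exact ⟨hR, le_rfl⟩
              · exact ⟨h1, h2.le⟩
          rw [hsplit, Finset.sum_insert (by simp)] at hsum
          have hrest : ((pp p (Nat.card K) : ℕ) : ℤ) ∣
              ∑ Q ∈ (PS p K).filter (R < ·), (Nat.card Q : ℤ) * wt (PS p K) Q := by
            let _ := cact K
            apply dvd_sum_orbits (A := K) _ _ _ _ rfl
            · intro a Q hQ
              rw [Finset.mem_filter] at hQ ⊢
              refine ⟨PS_conj K a a.2 Q hQ.1, ?_⟩
              have h1 : MulAut.conj (a : G) • R = R := (conj_smul_eq_iff _ _).2 (hN a.2)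
              rw [← h1]
              exact (conjIso (a : G)).strictMono hQ.2
            · intro a Q hQ
              rw [Finset.mem_filter] at hQ
              have h1 : Nat.card (MulAut.conj (a : G) • Q : Subgroup G) = Nat.card Q :=
                Nat.card_congr (Subgroup.equivSMul (MulAut.conj (a : G)) Q).toEquiv.symm
              change (Nat.card (MulAut.conj (a : G) • Q : Subgroup G) : ℤ) *
                wt (PS p K) (MulAut.conj (a : G) • Q) = _
              rw [h1, wt_conj K a a.2 Q hQ.1]
            · intro Q hQ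
              rw [Finset.mem_filter] at hQ
              have hQ' := mem_PS.1 hQ.1
              have hcard : Nat.card R < Nat.card Q := by
                apply lt_of_le_of_ne (Subgroup.card_le_of_le hQ.2.le)
                intro h
                exact hQ.2.ne (Subgroup.eq_of_le_of_card_ge hQ.2.le h.ge)
              have hcard2 : Nat.card Q ≤ Nat.card K := Subgroup.card_le_of_le hQ'.1
              have h1 := ihm (Nat.card K - Nat.card Q) (by omega) Q hQ.1 rfl
              have h2 := card_orbit_mul K Q
              have h3 : pp p (Nat.card K) ∣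
                  Nat.card (MulAction.orbit K Q) * pp p (Nat.card (K ⊓ nz Q : Subgroup G)) := by
                have h0 : Nat.card (MulAction.orbit K Q) ≠ 0 := by
                  intro h0
                  change Nat.card (MulAction.orbit K Q) * _ = _ at h2
                  rw [h0, zero_mul] at h2
                  exact Nat.card_pos.ne' h2.symm
                have h0' : Nat.card (K ⊓ nz Q : Subgroup G) ≠ 0 := Nat.card_pos.ne'
                change Nat.card (MulAction.orbit K Q) * _ = _ at h2
                rw [← h2, pp, Nat.factorization_mul h0 h0', Finsupp.add_apply, pow_add]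
                exact Nat.mul_dvd_mul (pp_dvd p _) dvd_rfl
              have h4 : ((pp p (Nat.card K) : ℕ) : ℤ) ∣
                  (Nat.card (MulAction.orbit K Q) : ℤ) *
                    (pp p (Nat.card (K ⊓ nz Q : Subgroup G)) : ℕ) := by
                exact_mod_cast h3
              exact h4.trans (mul_dvd_mul_left _ h1)
          have hfrob' : ((pp p (Nat.card K) : ℕ) : ℤ) ∣
              (Nat.card {x : G // x ∈ K ∧ ∃ k : ℕ, x ^ p ^ k = 1} : ℤ) := by
            exact_mod_cast hfrob
          rw [← hsum] at hfrob'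
          exact (dvd_add_left hrest).1 hfrob'
    intro R hR
    exact inner _ R hR rfl

end

end Pool.Agent.Q100.Chain
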